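import Pool.Agent.H244R4.SH.RevBridge
import Pool.Agent.H244R4.SH.All

/-!
# A Steinhaus surface without rotational symmetry

The surface is the boundary of the convex body
`y² + (9/5) cosh x ≤ 181/100`, `|z| ≤ 101/100 - cosh x` of Euclidean 3-space.
It consists of two flat (cylindrical) faces, top and bottom, and a vertical flat wall. The unique
point at maximal intrinsic distance from `p` is `-p`.
-/

set_option autoImplicit false

open Set

namespace Pool.Agent.Results.MP_324c12_gt.NotOfRevolution

/-- Euclidean 3-space. -/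
abbrev E3 : Type := EuclideanSpace ℝ (Fin 3)

/-- `γ` restricted to `[0, 1]` is a continuous curve in `S` from `p` to `q`. -/
def IsCurve (S : Set E3) (p q : E3) (γ : ℝ → E3) : Prop :=
  ContinuousOn γ (Icc 0 1) ∧ (∀ t ∈ Icc (0 : ℝ) 1, γ t ∈ S) ∧ γ 0 = p ∧ γ 1 = q

/-- The intrinsic distance of `p` and `q` on `S`: the infimum of the lengths of the curves in `S`
from `p` to `q` (the length is the variation of `γ` on `[0, 1]`). -/
noncomputable def idist (S : Set E3) (p q : E3) : ENNReal :=
  ⨅ (γ : ℝ → E3) (_ : IsCurve S p q γ), eVariationOn γ (Icc 0 1)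

/-- The antipodes of `p`: the points of `S` at maximal intrinsic distance from `p`. -/
def antipodes (S : Set E3) (p : E3) : Set E3 := {q | q ∈ S ∧ ∀ s ∈ S, idist S p s ≤ idist S p q}

/-- `S` is the boundary of a compact convex set with nonempty interior. -/
def IsConvexSurface (S : Set E3) : Prop :=
  ∃ K : Set E3, IsCompact K ∧ Convex ℝ K ∧ (interior K).Nonempty ∧ S = frontier K

/-- Every point `p` of `S` has exactly one antipode `F p`, and `F (F p) = p`. -/
def IsSteinhaus (S : Set E3) : Prop :=
  ∃ F : E3 → E3, (∀ p ∈ S, antipodes S p = {F p}) ∧ ∀ p ∈ S, F (F p) = p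

/-- Linear isometries of Euclidean 3-space. -/
abbrev Iso3 : Type := E3 ≃ₗᵢ[ℝ] E3

/-- The underlying linear map of a linear isometry. -/
def lin (R : Iso3) : E3 →ₗ[ℝ] E3 := R.toLinearMap

/-- The determinant of a linear map. -/
noncomputable def det3 (L : E3 →ₗ[ℝ] E3) : ℝ := LinearMap.det L

/-- The affine isometry `x ↦ o + R (x - o)`. -/
noncomputable def rot (o : E3) (R : Iso3) (x : E3) : E3 := o + R (x - o)

/-- `R` is a rotation that fixes `v`. -/
def FixesAxis (R : Iso3) (v : E3) : Prop := det3 (lin R) = 1 ∧ R v = v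

/-- There is a line (through `o`, with direction `v ≠ 0`) such that `S` is invariant under every
rotation `x ↦ o + R (x - o)` about this line (`R` a linear isometry with determinant `1` and
`R v = v`). -/
def IsSurfaceOfRevolution (S : Set E3) : Prop :=
  ∃ o v : E3, v ≠ 0 ∧ ∀ R : Iso3, FixesAxis R v → rot o R '' S = S

/-- **There is a Steinhaus surface without rotational symmetry.** Its antipodal map is the central
symmetry `p ↦ -p`. -/
theorem result : ∃ S : Set E3, IsConvexSurface S ∧ IsSteinhaus S ∧
    (∀ p ∈ S, antipodes S p = {-p}) ∧ ¬ IsSurfaceOfRevolution S := by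
  obtain ⟨S, h1, h2, h3, h4⟩ := H244SH.final
  refine ⟨S, h1, h2, h3, ?_⟩
  rintro ⟨o, v, hv, h⟩
  exact h4 (H244SH.rev_of_rot S ⟨o, v, hv, fun R hd hR => h R ⟨hd, hR⟩⟩)

end Pool.Agent.Results.MP_324c12_gt.NotOfRevolution
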